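import Mathlib
import Pool.Graph.R_seed8.H361R2.InfB1
import Pool.Graph.R_seed8.H361R2.InfA1
import Pool.Graph.R_seed8.H361R2.InfQMain

/-! Blocks of parameters for an arbitrary summable sequence of budgets, and the measure they give. -/

namespace Pool.Agent.Helper85.IG

open Finset Filter Topology
open Pool.Agent.H361R2 Pool.Agent.H361R2.Inf
open Pool.Agent.H361R2.GM (SPar)

/-- blocks for an arbitrary sequence of budgets `η t` with `∑ η t ≤ 2` -/
theorem exists_blocks_eta : ∃ C : ℝ, 0 < C ∧ ∀ η : ℕ → ℝ, (∀ t, 0 < η t) → (∀ t, η t ≤ 1) →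
    (∀ N, ∑ t ∈ range N, η t ≤ 2) → ∃ (off : ℕ → ℕ) (Q : ℕ → SPar),
    StrictMono off ∧ off 0 = 0 ∧
    (∀ i, (Q i).c = 1 / 10 ∧ (Q i).lam = 10 ∧ 0 < (Q i).I1 ∧ 0 < (Q i).I2 ∧
      (Q i).I2 ≤ (Q i).IE) ∧
    (∀ t, 1 ≤ ∑ i ∈ Ico (off t) (off (t + 1)), (Q i).I1 ^ 2 / (Q i).I2) ∧
    (∀ N, ∏ i ∈ range (off N), ((Q i).IE / (Q i).I2) ≤ Real.exp 2) ∧
    ∀ N : ℕ, (off (N + 1) : ℝ) ≤ off N + Real.exp (C / η N) := by
  classical
  obtain ⟨C, hC, hB1⟩ := block_par_exp
  refine ⟨C, hC, fun η hη0 hη1 hηs => ?_⟩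
  choose Qt kt hc hl hk h1 h2 hE hs hkb using fun t : ℕ => hB1 (η t) (hη0 t) (hη1 t)
  let off : ℕ → ℕ := fun t => ∑ s ∈ range t, kt s
  have hoff : ∀ t, off (t + 1) = off t + kt t := fun t => Finset.sum_range_succ _ _
  have hmono : StrictMono off := strictMono_nat_of_lt_succ fun t => by
    have := hk t
    rw [hoff]
    omega
  have hex : ∀ i, ∃ t, i < off (t + 1) := fun i =>
    ⟨i, lt_of_lt_of_le (Nat.lt_succ_self i) (hmono.id_le (i + 1))⟩
  let blk : ℕ → ℕ := fun i => Nat.find (hex i)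
  have hblk : ∀ t, ∀ i ∈ Ico (off t) (off (t + 1)), blk i = t := by
    intro t i hi
    rw [Finset.mem_Ico] at hi
    rw [Nat.find_eq_iff]
    refine ⟨hi.2, fun s hst hlt => ?_⟩
    have := hmono.monotone (Nat.succ_le_of_lt hst)
    have h3 : off (s + 1) ≤ off t := this
    omega
  have hdiff : ∀ t, off (t + 1) - off t = kt t := fun t => by rw [hoff]; omega
  refine ⟨off, fun i => Qt (blk i), hmono, by simp [off], fun i => ⟨hc _, hl _, h1 _, h2 _,
    InfA1_I2_le_IE _⟩, ?_, ?_, ?_⟩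
  · intro t
    have e : ∑ i ∈ Ico (off t) (off (t + 1)), (Qt (blk i)).I1 ^ 2 / (Qt (blk i)).I2 =
        ∑ i ∈ Ico (off t) (off (t + 1)), (Qt t).I1 ^ 2 / (Qt t).I2 :=
      Finset.sum_congr rfl fun i hi => by rw [hblk t i hi]
    rw [e, Finset.sum_const, Nat.card_Ico, hdiff, nsmul_eq_mul]
    exact hs t
  · have key : ∀ N, ∏ i ∈ range (off N), ((Qt (blk i)).IE / (Qt (blk i)).I2) ≤
        Real.exp (∑ t ∈ range N, η t) := by
      intro N
      induction N with
      | zero => simp [off]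
      | succ N ih =>
        rw [← Finset.prod_range_mul_prod_Ico _ (hmono.monotone (Nat.le_succ N)),
          Finset.sum_range_succ, Real.exp_add]
        have e : ∏ i ∈ Ico (off N) (off (N + 1)), ((Qt (blk i)).IE / (Qt (blk i)).I2) =
            ∏ i ∈ Ico (off N) (off (N + 1)), ((Qt N).IE / (Qt N).I2) :=
          Finset.prod_congr rfl fun i hi => by rw [hblk N i hi]
        have e' : ∏ i ∈ Ico (off N) (off N.succ), ((Qt (blk i)).IE / (Qt (blk i)).I2) ≤
            Real.exp (η N) := by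
          rw [Nat.succ_eq_add_one, e, Finset.prod_const, Nat.card_Ico, hdiff]
          exact hE N
        refine mul_le_mul ih e' ?_ (Real.exp_pos _).le
        refine Finset.prod_nonneg fun i _ => ?_
        have := h2 (blk i)
        have := InfA1_I2_le_IE (Qt (blk i))
        apply div_nonneg <;> linarith
    intro N
    exact (key N).trans (Real.exp_le_exp.2 (hηs N))
  · intro N
    rw [hoff]
    push_cast
    have := hkb N
    linarith

open T1 in
open Classical in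
/-- the density version of the intersectivity lemma along a sequence `σ` of lengths -/
theorem comb_density_sub (σ : ℕ → ℕ) (m : Set ℕ → ℝ) (hm : FMeas m) (hm2 : m Set.univ ≤ 2)
    (off : ℕ → ℕ) (hoff : StrictMono off) (E : ℕ → Set ℕ) (c : ℝ) (hc : 0 < c)
    (hB : ∀ t, c ≤ m {n | ∃ i ∈ Ico (off t) (off (t + 1)), n ∈ E i}) :
    ∃ I : Set ℕ, (∃ᶠ N : ℕ in atTop, c / 8 * σ N ≤
        ((range (σ N)).filter (fun t => ∃ i ∈ Ico (off t) (off (t + 1)), i ∈ I)).card) ∧
      ∀ N : ℕ, 0 < m {n | ∀ i < N, (n ∈ E i ↔ i ∈ I)} := by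
  set A : ℕ → Set ℕ := fun t => {n | ∃ i ∈ Ico (off t) (off (t + 1)), n ∈ E i} with hA
  refine comb2 m hm E (fun s => off (σ s)) (fun s => {I | c / 8 * σ s ≤
    (((range (σ s)).filter (fun t => ∃ i ∈ Ico (off t) (off (t + 1)), i ∈ I)).card : ℝ)}) ?_ (c / 2)
    (by positivity) ?_
  · intro s I I' hII
    have e : (range (σ s)).filter (fun t => ∃ i ∈ Ico (off t) (off (t + 1)), i ∈ I) =
        (range (σ s)).filter (fun t => ∃ i ∈ Ico (off t) (off (t + 1)), i ∈ I') := by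
      ext t
      simp only [Finset.mem_filter, Finset.mem_range]
      refine and_congr_right fun ht => ?_
      have hle : off (t + 1) ≤ off (σ s) := hoff.monotone ht
      constructor
      · rintro ⟨i, hi, h⟩
        rw [Finset.mem_Ico] at hi
        exact ⟨i, Finset.mem_Ico.2 hi, (hII i (by omega)).mp h⟩
      · rintro ⟨i, hi, h⟩
        rw [Finset.mem_Ico] at hi
        exact ⟨i, Finset.mem_Ico.2 hi, (hII i (by omega)).mpr h⟩
    simp only [Set.mem_ofPred_eq, e]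
  · intro s
    set j := σ s with hjdef
    set G : Set ℕ := {n | {i | n ∈ E i} ∈ {I : Set ℕ | c / 8 * j ≤
      (((range j).filter (fun t => ∃ i ∈ Ico (off t) (off (t + 1)), i ∈ I)).card : ℝ)}} with hG
    have hGmem : ∀ n, n ∉ G → ∀ F : Finset ℕ, F ⊆ range j → (∀ t ∈ F, n ∈ A t) →
        (F.card : ℝ) < c / 8 * j := by
      intro n hn F hF hFA
      simp only [hG, Set.mem_ofPred_eq, not_le] at hn
      refine lt_of_le_of_lt ?_ hn
      apply Nat.cast_le.2
      apply Finset.card_le_card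
      intro t ht
      simp only [Finset.mem_filter]
      exact ⟨hF ht, hFA t ht⟩
    rcases Nat.eq_zero_or_pos j with hj | hj
    · have hGu : G = Set.univ := by
        rw [Set.eq_univ_iff_forall]
        intro n
        simp only [hG, Set.mem_ofPred_eq, hj]
        simp
      rw [hGu]
      have h1 := hB 0
      have h2 : m {n | ∃ i ∈ Ico (off 0) (off (0 + 1)), n ∈ E i} ≤ m Set.univ :=
        mono hm (Set.subset_univ _)
      linarith
    · have hj0 : (0 : ℝ) < j := by exact_mod_cast hj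
      have hsplit : ∀ t, m (A t) = m (Gᶜ ∩ A t) + m (G ∩ A t) := by
        intro t
        rw [← hm.add]
        · congr 1
          ext n
          simp only [Set.mem_inter_iff, Set.mem_union, Set.mem_compl_iff]
          tauto
        · rw [Set.disjoint_left]
          rintro n ⟨h1, _⟩ ⟨h2, _⟩
          exact h1 h2
      have h1 : ∑ t ∈ range j, m (Gᶜ ∩ A t) ≤ (⌊c / 8 * j⌋₊ : ℝ) * m Gᶜ := by
        apply B3.sum_le hm A j
        intro n hn F hF hFA
        exact Nat.le_floor (hGmem n hn F hF hFA).le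
      have h2 : ∑ t ∈ range j, m (G ∩ A t) ≤ j * m G := by
        calc ∑ t ∈ range j, m (G ∩ A t) ≤ ∑ t ∈ range j, m G :=
              Finset.sum_le_sum fun t _ => mono hm Set.inter_subset_left
          _ = j * m G := by rw [Finset.sum_const, Finset.card_range, nsmul_eq_mul]
      have h3 : (j : ℝ) * c ≤ ∑ t ∈ range j, m (A t) := by
        calc (j : ℝ) * c = ∑ t ∈ range j, c := by
              rw [Finset.sum_const, Finset.card_range, nsmul_eq_mul]
          _ ≤ _ := Finset.sum_le_sum fun t _ => hB t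
      have h4 : (⌊c / 8 * j⌋₊ : ℝ) * m Gᶜ ≤ c / 8 * j * 2 := by
        have hfl : (⌊c / 8 * j⌋₊ : ℝ) ≤ c / 8 * j := Nat.floor_le (by positivity)
        have hGc : m Gᶜ ≤ 2 := (mono hm (Set.subset_univ _)).trans hm2
        exact mul_le_mul hfl hGc (hm.nonneg _) (by positivity)
      have h5 : ∑ t ∈ range j, m (A t) = ∑ t ∈ range j, m (Gᶜ ∩ A t) + ∑ t ∈ range j, m (G ∩ A t) := by
        rw [← Finset.sum_add_distrib]
        exact Finset.sum_congr rfl fun t _ => hsplit t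
      have h6 : (j : ℝ) * c ≤ c / 8 * j * 2 + j * m G := by linarith
      by_contra hlt
      push Not at hlt
      have h7 : (j : ℝ) * m G < j * (c / 2) := by
        apply mul_lt_mul_of_pos_left hlt hj0
      nlinarith

/-- exact patterns from admissible sequences of linear forms, for arbitrary budgets -/
theorem exact_seq_eta : ∃ C : ℝ, 0 < C ∧ ∀ η : ℕ → ℝ, (∀ t, 0 < η t) → (∀ t, η t ≤ 1) →
    (∀ N, ∑ t ∈ range N, η t ≤ 2) → ∀ σ : ℕ → ℕ,
    ∀ (A B : ℕ → ℤ), (∀ i, 1 ≤ A i) → Function.Injective (fun i => (A i, B i)) →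
    (∀ p : ℕ, p.Prime → ∃ n : ℕ, ∀ i, ¬ (p : ℤ) ∣ A i * n + B i) →
    ∃ off : ℕ → ℕ, off 0 = 0 ∧ (∀ N : ℕ, (off (N + 1) : ℝ) ≤ off N + Real.exp (C / η N)) ∧
    ∃ I : Set ℕ, (∃ᶠ s : ℕ in atTop, 1 / 1600 * (σ s : ℝ) ≤ ((I ∩ Set.Iio (off (σ s))).ncard : ℝ)) ∧
      ∀ T : Finset (ℤ × ℤ), (∀ f ∈ T, 1 ≤ f.1) →
      {n : ℕ | ∀ f ∈ T, (Nat.Prime (f.1 * n + f.2).toNat ↔ ∃ i ∈ I, f = (A i, B i))}.Infinite := by
  classical
  obtain ⟨C, hC, hblocks⟩ := exists_blocks_eta
  refine ⟨C, hC, fun η hη0 hη1 hηs σ A B hA hinj hadm => ?_⟩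
  have hcop : ∀ i, IsCoprime (A i) (B i) := by
    intro i
    rw [Int.isCoprime_iff_gcd_eq_one]
    by_contra hcon
    obtain ⟨p, hp, hpd⟩ := Nat.exists_prime_and_dvd hcon
    obtain ⟨n, hn⟩ := hadm p hp
    apply hn i
    have h1 : (p : ℤ) ∣ A i := (Int.natCast_dvd_natCast.mpr hpd).trans (Int.gcd_dvd_left ..)
    have h2 : (p : ℤ) ∣ B i := (Int.natCast_dvd_natCast.mpr hpd).trans (Int.gcd_dvd_right ..)
    exact dvd_add (h1.mul_right _) h2
  obtain ⟨off, Q, hoff, h0, hQ, hQ1, hQ2, hgr⟩ := hblocks η hη0 hη1 hηs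
  have hBM : BlockMeas off (1 / 200) := by
    apply blockMeas_of_finBlock off (1 / 200)
    apply finBlock_of off Q hoff h0 hQ hQ1 hQ2
    intro k B h1 h2 h3 h4 a b ha hb hnp hadm
    exact sieve_out B h1 h2 h3 h4
      (fun a b D v hc ε hε hε1 hS => pair_bound B h1 a b D v hc ε hε hε1 hS) a b ha hb hnp hadm
  refine ⟨off, h0, hgr, ?_⟩
  apply exact_seq_of (fun I => ∃ᶠ s : ℕ in atTop, 1 / 1600 * (σ s : ℝ) ≤
    ((I ∩ Set.Iio (off (σ s))).ncard : ℝ)) off _ A B hA hcop hinj hadm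
  intro A B hA hne W r hW hWp hcop hcop'
  apply inf_class_of_combP (fun I => ∃ᶠ s : ℕ in atTop, 1 / 1600 * (σ s : ℝ) ≤
    ((I ∩ Set.Iio (off (σ s))).ncard : ℝ)) off hoff h0 (1 / 200) (by norm_num) _ hBM A B hA hne W r
    hW hWp hcop hcop'
  intro m hm hm2 E hB
  obtain ⟨I, hI1, hI2⟩ := comb_density_sub σ m hm hm2 off hoff E (1 / 200) (by norm_num) hB
  refine ⟨I, ?_, hI2⟩
  refine hI1.mono fun s hs => ?_
  have h1 := hit_le off hoff I (σ s)
  have h2 : (((range (σ s)).filter (fun t => ∃ i ∈ Ico (off t) (off (t + 1)), i ∈ I)).card : ℝ) ≤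
      ((I ∩ Set.Iio (off (σ s))).ncard : ℝ) := by
    refine le_trans (le_of_eq ?_) (Nat.cast_le.2 h1)
    congr! 2
  linarith

end Pool.Agent.Helper85.IG
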