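import Mathlib
import Pool.Agent.Helper85.IG.Blocks

/-! Exact patterns of growth `log n / ψ n` from admissible sequences of linear forms. -/

namespace Pool.Agent.Helper85.IG

open Finset Filter Topology

/-- the choice of the next scale -/
theorem next_scale (C : ℝ) (hC : 0 < C) (𝒩 : Set ℕ) (h𝒩 : 𝒩.Infinite) (L : ℕ → ℕ) (t : ℕ) (V : ℝ) :
    ∃ n ∈ 𝒩, L t ≤ n ∧ 1 ≤ n ∧ 2 ≤ Real.log n / (C * 2 ^ (t + 2)) ∧
      V + (Real.log n / (C * 2 ^ (t + 2))) * Real.exp (Real.log n / 2) ≤ n := by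
  have hK : (0 : ℝ) < C * 2 ^ (t + 2) := by positivity
  have h1 : Tendsto (fun n : ℕ => Real.log n) atTop atTop :=
    Real.tendsto_log_atTop.comp tendsto_natCast_atTop_atTop
  -- in terms of `y = log n`
  have h2 : ∀ᶠ y : ℝ in atTop, V + (y / (C * 2 ^ (t + 2))) * Real.exp (y / 2) ≤ Real.exp y := by
    have h3 : Tendsto (fun y : ℝ => Real.exp (y / 2) / (y / 2) ^ 1) atTop atTop :=
      (Real.tendsto_exp_div_pow_atTop 1).comp (tendsto_id.atTop_div_const (by norm_num))
    have h4 : Tendsto (fun y : ℝ => Real.exp y) atTop atTop := Real.tendsto_exp_atTop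
    filter_upwards [h3.eventually_ge_atTop (4 / (C * 2 ^ (t + 2))),
      h4.eventually_ge_atTop (2 * |V|), eventually_gt_atTop 0] with y hy1 hy2 hy3
    rw [pow_one, div_le_div_iff₀ hK (by positivity)] at hy1
    have e : Real.exp y = Real.exp (y / 2) * Real.exp (y / 2) := by
      rw [← Real.exp_add]; congr 1; ring
    have h5 : y / (C * 2 ^ (t + 2)) ≤ Real.exp (y / 2) / 2 := by
      rw [div_le_div_iff₀ hK (by norm_num)]
      linarith
    have h6 : (y / (C * 2 ^ (t + 2))) * Real.exp (y / 2) ≤ Real.exp y / 2 := by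
      rw [e]
      have := mul_le_mul_of_nonneg_right h5 (Real.exp_pos (y / 2)).le
      linarith
    have h7 : V ≤ Real.exp y / 2 := by
      have := le_abs_self V
      linarith
    linarith
  have h8 := (h1.eventually h2).and ((h1.eventually_ge_atTop (2 * (C * 2 ^ (t + 2)))).and
    ((eventually_ge_atTop (L t)).and (eventually_ge_atTop 1)))
  obtain ⟨n₀, hn₀⟩ := eventually_atTop.1 h8
  obtain ⟨n, hn, hn1⟩ := h𝒩.exists_gt n₀
  obtain ⟨h9, h10, h11, h12⟩ := hn₀ n hn1.le
  refine ⟨n, hn, h11, h12, ?_, ?_⟩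
  · rw [le_div_iff₀ hK]
    exact h10
  · have h13 : Real.exp (Real.log n) = n := Real.exp_log (by exact_mod_cast h12)
    rw [h13] at h9
    exact h9

/-- exact patterns of growth `log n / ψ n` along prescribed scales `n`, from admissible sequences of
linear forms; `c₀` is an absolute constant -/
theorem seq_growth : ∃ c₀ : ℝ, 0 < c₀ ∧ ∀ (𝒩 : Set ℕ), 𝒩.Infinite → ∀ (L : ℕ → ℕ)
    (A B : ℕ → ℤ), (∀ i, 1 ≤ A i) → Function.Injective (fun i => (A i, B i)) →
    (∀ p : ℕ, p.Prime → ∃ n : ℕ, ∀ i, ¬ (p : ℤ) ∣ A i * n + B i) →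
    ∃ I : Set ℕ, (∃ᶠ t : ℕ in atTop, ∃ n ∈ 𝒩, L t ≤ n ∧
        c₀ * Real.log n ≤ 2 ^ t * ((I ∩ Set.Iio n).ncard : ℝ)) ∧
      ∀ T : Finset (ℤ × ℤ), (∀ f ∈ T, 1 ≤ f.1) →
      {n : ℕ | ∀ f ∈ T, (Nat.Prime (f.1 * n + f.2).toNat ↔ ∃ i ∈ I, f = (A i, B i))}.Infinite := by
  classical
  obtain ⟨C, hC, hmain⟩ := exact_seq_eta
  refine ⟨1 / (12800 * C), by positivity, fun 𝒩 h𝒩 L A B hA hinj hadm => ?_⟩
  choose f hf1 hf2 hf3 hf4 hf5 using next_scale C hC 𝒩 h𝒩 L
  -- the recursion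
  let Nf : ℕ → ℝ → ℕ := fun t v => ⌊Real.log (f t v) / (C * 2 ^ (t + 2))⌋₊
  let V : ℕ → ℝ := fun t => Nat.rec 0 (fun t v => v + Nf t v * Real.exp (C * 2 ^ (t + 1) * Nf t v)) t
  have hV : ∀ t, V (t + 1) = V t + Nf t (V t) * Real.exp (C * 2 ^ (t + 1) * Nf t (V t)) :=
    fun t => rfl
  set n : ℕ → ℕ := fun t => f t (V t) with hn
  set N : ℕ → ℕ := fun t => Nf t (V t) with hN
  have hNdef : ∀ t, N t = ⌊Real.log (n t) / (C * 2 ^ (t + 2))⌋₊ := fun t => rfl
  have hK : ∀ t : ℕ, (0 : ℝ) < C * 2 ^ (t + 2) := fun t => by positivity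
  have hNle : ∀ t, (N t : ℝ) ≤ Real.log (n t) / (C * 2 ^ (t + 2)) := fun t => by
    rw [hNdef]
    exact Nat.floor_le (by have := hf4 t (V t); simp only [hn]; linarith)
  have hNge : ∀ t, Real.log (n t) / (C * 2 ^ (t + 2)) / 2 ≤ (N t : ℝ) := fun t => by
    have h1 := Nat.sub_one_lt_floor (Real.log (n t) / (C * 2 ^ (t + 2)))
    rw [← hNdef] at h1
    have h2 : 2 ≤ Real.log (n t) / (C * 2 ^ (t + 2)) := hf4 t (V t)
    linarith
  have hN1 : ∀ t, 1 ≤ N t := fun t => by
    have h1 := hNge t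
    have h2 : 2 ≤ Real.log (n t) / (C * 2 ^ (t + 2)) := hf4 t (V t)
    have h3 : (1 : ℝ) ≤ N t := by linarith
    exact_mod_cast h3
  have hexp : ∀ t, Real.exp (C * 2 ^ (t + 1) * N t) ≤ Real.exp (Real.log (n t) / 2) := fun t => by
    apply Real.exp_le_exp.2
    have h1 := hNle t
    rw [le_div_iff₀ (hK t)] at h1
    have e : (2 : ℝ) ^ (t + 2) = 2 * 2 ^ (t + 1) := by ring
    rw [e] at h1
    linarith
  have hVn : ∀ t, V (t + 1) ≤ n t := fun t => by
    rw [hV]
    have h1 : (N t : ℝ) * Real.exp (C * 2 ^ (t + 1) * N t) ≤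
        (Real.log (n t) / (C * 2 ^ (t + 2))) * Real.exp (Real.log (n t) / 2) :=
      mul_le_mul (hNle t) (hexp t) (Real.exp_pos _).le (le_trans (Nat.cast_nonneg _) (hNle t))
    have h2 : V t + (Real.log (n t) / (C * 2 ^ (t + 2))) * Real.exp (Real.log (n t) / 2) ≤ n t :=
      hf5 t (V t)
    linarith
  -- the groups
  set S : ℕ → ℕ := fun t => ∑ u ∈ range t, N u with hS
  have hS1 : ∀ t, S (t + 1) = S t + N t := fun t => Finset.sum_range_succ _ _
  have hSmono : StrictMono S := strictMono_nat_of_lt_succ fun t => by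
    have := hN1 t
    rw [hS1]
    omega
  have hex : ∀ i, ∃ t, i < S (t + 1) := fun i =>
    ⟨i, lt_of_lt_of_le (Nat.lt_succ_self i) (hSmono.id_le (i + 1))⟩
  let grp : ℕ → ℕ := fun i => Nat.find (hex i)
  have hgrp : ∀ t i, S t ≤ i → i < S (t + 1) → grp i = t := by
    intro t i h1 h2
    rw [Nat.find_eq_iff]
    refine ⟨h2, fun s hst hlt => ?_⟩
    have := hSmono.monotone (Nat.succ_le_of_lt hst)
    have h3 : S (s + 1) ≤ S t := this
    omega
  set η : ℕ → ℝ := fun s => (1 / 2) ^ (grp s + 1) / N (grp s) with hη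
  have hη0 : ∀ s, 0 < η s := fun s => by
    have h1 : (0 : ℝ) < N (grp s) := by exact_mod_cast hN1 (grp s)
    simp only [hη]
    positivity
  have hη1 : ∀ s, η s ≤ 1 := fun s => by
    have h1 : (1 : ℝ) ≤ N (grp s) := by exact_mod_cast hN1 (grp s)
    simp only [hη]
    rw [div_le_one (by linarith)]
    calc ((1 : ℝ) / 2) ^ (grp s + 1) ≤ 1 := pow_le_one₀ (by norm_num) (by norm_num)
      _ ≤ _ := h1
  have hηsum1 : ∀ t, ∑ s ∈ range (S t), η s ≤ 1 - (1 / 2) ^ t := by
    intro t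
    induction t with
    | zero => simp [hS]
    | succ t ih =>
      rw [← Finset.sum_range_add_sum_Ico _ (hSmono.monotone (Nat.le_succ t))]
      have e : ∑ s ∈ Ico (S t) (S t.succ), η s = (1 / 2) ^ (t + 1) := by
        have e1 : ∀ s ∈ Ico (S t) (S t.succ), η s = (1 / 2) ^ (t + 1) / N t := by
          intro s hs
          rw [Finset.mem_Ico] at hs
          simp only [hη]
          rw [hgrp t s hs.1 hs.2]
        rw [Finset.sum_congr rfl e1, Finset.sum_const, Nat.card_Ico, Nat.succ_eq_add_one, hS1,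
          Nat.add_sub_cancel_left, nsmul_eq_mul]
        have : (0 : ℝ) < N t := by exact_mod_cast hN1 t
        field_simp
      rw [e]
      have e2 : ((1 : ℝ) / 2) ^ (t + 1) = (1 / 2) ^ t * (1 / 2) := pow_succ _ _
      rw [e2]
      linarith
  have hηsum : ∀ M, ∑ s ∈ range M, η s ≤ 2 := by
    intro M
    have h1 : ∑ s ∈ range M, η s ≤ ∑ s ∈ range (S M), η s :=
      Finset.sum_le_sum_of_subset_of_nonneg (Finset.range_mono (hSmono.id_le M))
        fun s _ _ => (hη0 s).le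
    have h2 := hηsum1 M
    have h3 : (0 : ℝ) ≤ (1 / 2) ^ M := by positivity
    linarith
  obtain ⟨off, hoff0, hoff, I, hI1, hI2⟩ := hmain η hη0 hη1 hηsum (fun s => S (s + 1)) A B hA hinj hadm
  have hoffS : ∀ t, (off (S t) : ℝ) ≤ V t := by
    intro t
    induction t with
    | zero =>
      have : S 0 = 0 := by simp [hS]
      rw [this, hoff0]
      simp [V]
    | succ t ih =>
      have key : ∀ j, j ≤ N t → (off (S t + j) : ℝ) ≤ V t + j * Real.exp (C * 2 ^ (t + 1) * N t) := by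
        intro j
        induction j with
        | zero => intro _; simpa using ih
        | succ j ihj =>
          intro hj
          have h1 := ihj (by omega)
          have h2 := hoff (S t + j)
          have h3 : grp (S t + j) = t := hgrp t _ (by omega) (by rw [hS1]; omega)
          have h4 : C / η (S t + j) = C * 2 ^ (t + 1) * N t := by
            have h5 : (0 : ℝ) < N t := by exact_mod_cast hN1 t
            simp only [hη, h3]
            rw [one_div, inv_pow]
            field_simp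
          rw [h4] at h2
          rw [← add_assoc]
          push_cast
          linarith
      have := key (N t) le_rfl
      rw [hS1, hV]
      exact this
  refine ⟨I, ?_, hI2⟩
  refine hI1.mono fun s hs => ?_
  refine ⟨n s, hf1 s (V s), hf2 s (V s), ?_⟩
  have h1 : off (S (s + 1)) ≤ n s := by
    have := (hoffS (s + 1)).trans (hVn s)
    exact_mod_cast this
  have h2 : ((I ∩ Set.Iio (off (S (s + 1)))).ncard : ℝ) ≤ ((I ∩ Set.Iio (n s)).ncard : ℝ) := by
    apply Nat.cast_le.2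
    apply Set.ncard_le_ncard _ ((Set.finite_Iio _).inter_of_right _)
    exact Set.inter_subset_inter_right _ (Set.Iio_subset_Iio h1)
  have h3 : Real.log (n s) / (C * 2 ^ (s + 2)) / 2 ≤ (S (s + 1) : ℝ) := by
    refine (hNge s).trans ?_
    rw [hS1]
    push_cast
    linarith [Nat.cast_nonneg (α := ℝ) (S s)]
  have h4 : 1 / 1600 * (Real.log (n s) / (C * 2 ^ (s + 2)) / 2) ≤ ((I ∩ Set.Iio (n s)).ncard : ℝ) := by
    refine le_trans ?_ (hs.trans h2)
    gcongr
  have h5 : 1 / (12800 * C) * Real.log (n s) =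
      2 ^ s * (1 / 1600 * (Real.log (n s) / (C * 2 ^ (s + 2)) / 2)) := by
    have e : (2 : ℝ) ^ (s + 2) = 4 * 2 ^ s := by ring
    rw [e]
    field_simp
    ring
  rw [h5]
  gcongr

end Pool.Agent.Helper85.IG
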