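import Mathlib

/-! Selection of an admissible subset of an arbitrary infinite set, with a power of its elements at
infinitely many prescribed scales. -/

namespace Pool.Agent.Helper85.IG

open Finset Filter Topology

/-- one prime: remove the least popular residue class outside a set `D` of classes -/
theorem remove_class (p : ℕ) (V : Finset ℕ) (D : Finset ℕ) (hD : D.card < p) :
    ∃ c < p, c ∉ D ∧ (p - D.card) * (V.filter (fun a => a % p = c)).card ≤ V.card := by
  classical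
  set R := (range p).filter (fun c => c ∉ D) with hR
  have hRcard : p - D.card ≤ R.card := by
    have h1 : (range p).card ≤ R.card + D.card := by
      have h2 : range p ⊆ R ∪ D := by
        intro c hc
        by_cases h : c ∈ D
        · exact mem_union_right _ h
        · exact mem_union_left _ (mem_filter.2 ⟨hc, h⟩)
      exact (card_le_card h2).trans (card_union_le _ _)
    rw [card_range] at h1
    omega
  have hRne : R.Nonempty := card_pos.1 (by omega)
  have hsum : ∑ c ∈ R, (V.filter (fun a => a % p = c)).card ≤ V.card := by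
    rw [← card_biUnion]
    · apply card_le_card
      intro a ha
      obtain ⟨c, _, hc⟩ := mem_biUnion.1 ha
      exact (mem_filter.1 hc).1
    · intro c _ c' _ hcc
      simp only [Function.onFun]
      rw [Finset.disjoint_left]
      intro a ha ha'
      exact hcc ((mem_filter.1 ha).2.symm.trans (mem_filter.1 ha').2)
  obtain ⟨c, hc, hmin⟩ := exists_min_image R (fun c => (V.filter (fun a => a % p = c)).card) hRne
  refine ⟨c, mem_range.1 (mem_filter.1 hc).1, (mem_filter.1 hc).2, ?_⟩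
  calc (p - D.card) * (V.filter (fun a => a % p = c)).card
      ≤ R.card * (V.filter (fun a => a % p = c)).card := Nat.mul_le_mul_right _ hRcard
    _ = ∑ c' ∈ R, (V.filter (fun a => a % p = c)).card := by rw [sum_const, smul_eq_mul]
    _ ≤ ∑ c' ∈ R, (V.filter (fun a => a % p = c')).card := sum_le_sum fun c' hc' => hmin c' hc'
    _ ≤ V.card := hsum

/-- finitely many primes -/
theorem remove_classes (V : Finset ℕ) (E P : ℕ) (hP : 2 ≤ P) (hE : 2 * E ≤ P + 1) (D : ℕ → Finset ℕ)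
    (hD : ∀ p, (D p).card ≤ E) (P' : ℕ) (hPP : P ≤ P') :
    ∃ V' ⊆ V, V.card * (P * (P - 1)) ≤ V'.card * (P' * (P' - 1)) ∧
      ∀ p, P < p → p ≤ P' → ∃ c < p, c ∉ D p ∧ ∀ a ∈ V', a % p ≠ c := by
  classical
  induction P', hPP using Nat.le_induction with
  | base => exact ⟨V, subset_rfl, le_rfl, fun p h1 h2 => by omega⟩
  | succ P' hPP ih =>
    obtain ⟨V', hV', hcard, hc⟩ := ih
    obtain ⟨c, hcp, hcD, hcc⟩ := remove_class (P' + 1) V' (D (P' + 1))
      (by have := hD (P' + 1); omega)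
    refine ⟨V'.filter (fun a => ¬ a % (P' + 1) = c), (filter_subset _ _).trans hV', ?_, ?_⟩
    · have h1 : (V'.filter (fun a => a % (P' + 1) = c)).card +
          (V'.filter (fun a => ¬ a % (P' + 1) = c)).card = V'.card :=
        card_filter_add_card_filter_not _
      set x := (V'.filter (fun a => a % (P' + 1) = c)).card with hx
      set y := (V'.filter (fun a => ¬ a % (P' + 1) = c)).card with hy
      have h2 : (P' + 1) * x ≤ 2 * V'.card := by
        have h3 : P' + 1 ≤ 2 * (P' + 1 - (D (P' + 1)).card) := by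
          have := hD (P' + 1)
          omega
        calc (P' + 1) * x ≤ 2 * (P' + 1 - (D (P' + 1)).card) * x := Nat.mul_le_mul_right _ h3
          _ = 2 * ((P' + 1 - (D (P' + 1)).card) * x) := by ring
          _ ≤ 2 * V'.card := Nat.mul_le_mul_left _ hcc
      have h4 : V'.card * (P' * (P' - 1)) ≤ y * ((P' + 1) * (P' + 1 - 1)) := by
        obtain ⟨Q, rfl⟩ : ∃ Q, P' = Q + 1 := ⟨P' - 1, by omega⟩
        simp only [Nat.add_sub_cancel]
        rw [← h1] at h2 ⊢
        nlinarith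
      exact hcard.trans h4
    · intro p h1 h2
      rcases Nat.lt_or_ge p (P' + 1) with h | h
      · obtain ⟨c', h3, h4, h5⟩ := hc p h1 (by omega)
        exact ⟨c', h3, h4, fun a ha => h5 a (mem_filter.1 ha).1⟩
      · have hpe : p = P' + 1 := by omega
        subst hpe
        exact ⟨c, hcp, hcD, fun a ha => (mem_filter.1 ha).2⟩

/-- pigeonhole: some class modulo `M` has a proportion `1 / M` of the elements at infinitely many
scales, also after the removal of the elements below `Y` -/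
theorem exists_class (A A' 𝒳 : Set ℕ) (hA : A.Infinite) (m : ℕ) (M : ℕ) (hM : 0 < M) (Y : ℕ)
    (h : {X ∈ 𝒳 | (A ∩ Set.Iio X).ncard ≤ m * (A' ∩ Set.Iio X).ncard}.Infinite) :
    ∃ d < M, {X ∈ 𝒳 | (A ∩ Set.Iio X).ncard ≤
      (2 * m * M) * ({a ∈ A' | a % M = d ∧ Y ≤ a} ∩ Set.Iio X).ncard}.Infinite := by
  classical
  -- large scales
  have hlarge : ∃ X₀, ∀ X, X₀ ≤ X → 2 * m * M * Y ≤ (A ∩ Set.Iio X).ncard := by
    obtain ⟨F, hF, hFc⟩ := hA.exists_subset_card_eq (2 * m * M * Y)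
    refine ⟨F.sup id + 1, fun X hX => ?_⟩
    rw [← hFc, ← Set.ncard_coe_finset]
    apply Set.ncard_le_ncard _ ((Set.finite_Iio _).inter_of_right _)
    intro a ha
    refine ⟨hF ha, ?_⟩
    have : a ≤ F.sup id := Finset.le_sup (f := id) ha
    simp only [Set.mem_Iio]
    omega
  obtain ⟨X₀, hX₀⟩ := hlarge
  by_contra hcon
  push Not at hcon
  have hfin : (⋃ d ∈ range M, {X ∈ 𝒳 | (A ∩ Set.Iio X).ncard ≤
      (2 * m * M) * ({a ∈ A' | a % M = d ∧ Y ≤ a} ∩ Set.Iio X).ncard}).Finite := by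
    refine Set.Finite.biUnion (range M).finite_toSet fun d hd => ?_
    exact hcon d (mem_range.1 hd)
  refine h ((hfin.union (Set.finite_Iio X₀)).subset ?_)
  rintro X ⟨hX, hX2⟩
  by_cases hXX : X < X₀
  · exact Or.inr hXX
  left
  by_contra hnot
  simp only [Set.mem_iUnion, not_exists] at hnot
  have hlt : ∀ d ∈ range M, (2 * m * M) * ({a ∈ A' | a % M = d ∧ Y ≤ a} ∩ Set.Iio X).ncard <
      (A ∩ Set.Iio X).ncard := by
    intro d hd
    by_contra hge
    exact hnot d hd ⟨hX, not_lt.1 hge⟩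
  have hcover : A' ∩ Set.Iio X ⊆ Set.Iio Y ∪ ⋃ d ∈ range M,
      ({a ∈ A' | a % M = d ∧ Y ≤ a} ∩ Set.Iio X) := by
    rintro a ⟨ha, haX⟩
    by_cases haY : a < Y
    · exact Or.inl haY
    · right
      simp only [Set.mem_iUnion]
      exact ⟨a % M, mem_range.2 (Nat.mod_lt _ hM), ⟨ha, rfl, not_lt.1 haY⟩, haX⟩
  have hcard : (A' ∩ Set.Iio X).ncard ≤ Y + ∑ d ∈ range M,
      ({a ∈ A' | a % M = d ∧ Y ≤ a} ∩ Set.Iio X).ncard := by
    have h1 : (Set.Iio Y ∪ ⋃ d ∈ range M,
      ({a ∈ A' | a % M = d ∧ Y ≤ a} ∩ Set.Iio X)).Finite := by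
      refine (Set.finite_Iio Y).union (Set.Finite.biUnion (range M).finite_toSet fun d _ => ?_)
      exact (Set.finite_Iio _).inter_of_right _
    refine (Set.ncard_le_ncard hcover h1).trans ((Set.ncard_union_le _ _).trans ?_)
    apply Nat.add_le_add
    · rw [← Nat.card_coe_set_eq]
      simp
    · exact Finset.set_ncard_biUnion_le _ _
  have h3 := hX₀ X (not_lt.1 hXX)
  have h4 : (2 * m * M) * ∑ d ∈ range M,
      ({a ∈ A' | a % M = d ∧ Y ≤ a} ∩ Set.Iio X).ncard < M * (A ∩ Set.Iio X).ncard := by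
    rw [mul_sum]
    calc ∑ d ∈ range M, (2 * m * M) * ({a ∈ A' | a % M = d ∧ Y ≤ a} ∩ Set.Iio X).ncard
        < ∑ d ∈ range M, (A ∩ Set.Iio X).ncard :=
          sum_lt_sum_of_nonempty ⟨0, mem_range.2 hM⟩ hlt
      _ = _ := by rw [sum_const, card_range, smul_eq_mul]
  -- combine
  set x := (A ∩ Set.Iio X).ncard with hx
  set S := ∑ d ∈ range M, ({a ∈ A' | a % M = d ∧ Y ≤ a} ∩ Set.Iio X).ncard with hS
  have h5 : 2 * M * x ≤ 2 * M * (m * (Y + S)) := by
    apply Nat.mul_le_mul_left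
    exact hX2.trans (Nat.mul_le_mul_left _ hcard)
  have h6 : 2 * M * (m * (Y + S)) = 2 * m * M * Y + 2 * m * M * S := by ring
  have h7 : x ≤ M * x := Nat.le_mul_of_pos_left _ hM
  have h8 : 2 * M * x = M * x + M * x := by ring
  omega

/-- the state of the selection: a finite set `F` and an infinite reservoir `R` -/
structure St (A 𝒳 : Set ℕ) where
  F : Finset ℕ
  R : Set ℕ
  m : ℕ
  P : ℕ
  hF : (F : Set ℕ) ⊆ A
  hR : R ⊆ A
  hP2 : 2 ≤ P
  hP : 2 * (F.card + 1) ≤ P + 1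
  good : {X ∈ 𝒳 | (A ∩ Set.Iio X).ncard ≤ m * (R ∩ Set.Iio X).ncard}.Infinite
  adm : ∀ p : ℕ, p.Prime → p ≤ P → ∃ c < p, (∀ a ∈ F, a % p ≠ c) ∧ ∀ a ∈ R, a % p ≠ c

theorem exists_St0 (A 𝒳 : Set ℕ) (hA : A.Infinite) (h𝒳 : 𝒳.Infinite) : ∃ s : St A 𝒳, s.F = ∅ := by
  obtain ⟨d, hd, h⟩ := exists_class A A 𝒳 hA 1 2 (by norm_num) 0 (by
    refine h𝒳.mono fun X hX => ⟨hX, by simp⟩)
  refine ⟨⟨∅, {a ∈ A | a % 2 = d ∧ 0 ≤ a}, 2 * 1 * 2, 2, by simp, fun a ha => ha.1, le_rfl,
    by simp, h, ?_⟩, rfl⟩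
  intro p hp hp2
  have hp3 : p = 2 := le_antisymm hp2 hp.two_le
  subst hp3
  refine ⟨1 - d, by omega, by simp, ?_⟩
  rintro a ⟨_, ha, _⟩
  omega

theorem step_St (A 𝒳 : Set ℕ) (hA : A.Infinite) (s : St A 𝒳) (Y : ℕ) :
    ∃ s' : St A 𝒳, ∃ X ∈ 𝒳, Y ≤ X ∧ s.F ⊆ s'.F ∧ ((s'.F : Set ℕ) ∪ s'.R ⊆ (s.F : Set ℕ) ∪ s.R) ∧
      s.P < s'.P ∧ (A ∩ Set.Iio X).ncard ≤ ((s'.F : Set ℕ) ∩ Set.Iio X).ncard ^ 5 ∧
      Y ≤ (A ∩ Set.Iio X).ncard := by
  classical
  -- a large number
  set Z : ℕ := 16 * (s.m + s.F.card + s.P + Y + 2) with hZ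
  obtain ⟨X, ⟨hX, hXm⟩, hXlarge⟩ : ∃ X ∈ {X ∈ 𝒳 | (A ∩ Set.Iio X).ncard ≤
      s.m * (s.R ∩ Set.Iio X).ncard}, Y ≤ X ∧ Z ^ 5 ≤ (A ∩ Set.Iio X).ncard := by
    obtain ⟨F, hF, hFc⟩ := hA.exists_subset_card_eq (Z ^ 5)
    obtain ⟨X, hX, hX1⟩ := s.good.exists_gt (max Y (F.sup id + 1))
    refine ⟨X, hX, (le_max_left _ _).trans hX1.le, ?_⟩
    rw [← hFc, ← Set.ncard_coe_finset]
    apply Set.ncard_le_ncard _ ((Set.finite_Iio _).inter_of_right _)
    intro a ha
    refine ⟨hF ha, ?_⟩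
    have h1 : a ≤ F.sup id := Finset.le_sup (f := id) ha
    have h2 := (le_max_right Y (F.sup id + 1)).trans_lt hX1
    simp only [Set.mem_Iio]
    omega
  obtain ⟨hXY, hXZ⟩ := hXlarge
  set a := (A ∩ Set.Iio X).ncard with ha
  -- the fifth root of `a`
  obtain ⟨K, hK1, hK2⟩ : ∃ K : ℕ, K ^ 5 ≤ a ∧ a < (K + 1) ^ 5 := by
    have hex : ∃ K : ℕ, a < (K + 1) ^ 5 := ⟨a, by
      calc a < a + 1 := Nat.lt_succ_self a
        _ = (a + 1) ^ 1 := (pow_one _).symm
        _ ≤ (a + 1) ^ 5 := Nat.pow_le_pow_right (by omega) (by norm_num)⟩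
    refine ⟨Nat.find hex, ?_, Nat.find_spec hex⟩
    by_cases h0 : Nat.find hex = 0
    · rw [h0]; simp
    · have h1 := Nat.find_min hex (m := Nat.find hex - 1) (by omega)
      rw [not_lt] at h1
      have h2 : Nat.find hex - 1 + 1 = Nat.find hex := by omega
      rwa [h2] at h1
  have hKZ : Z ≤ K := by
    have h1 : Z ^ 5 < (K + 1) ^ 5 := lt_of_le_of_lt hXZ hK2
    have h2 := lt_of_pow_lt_pow_left₀ 5 (by omega) h1
    omega
  set k := K + 1 with hk
  -- the finite set of the elements of the reservoir below `X`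
  have hfinR : (s.R ∩ Set.Iio X).Finite := (Set.finite_Iio _).inter_of_right _
  set V := hfinR.toFinset with hV
  have hVcard : V.card = (s.R ∩ Set.Iio X).ncard := (Set.ncard_eq_toFinset_card _ hfinR).symm
  set P' := 2 * (s.F.card + k + 1) + s.P with hP'
  set M := ∏ p ∈ (Ioc s.P P').filter Nat.Prime, p with hM
  have hMpos : 0 < M := prod_pos fun p hp => (mem_filter.1 hp).2.pos
  obtain ⟨d, hd, hgood⟩ := exists_class A s.R 𝒳 hA s.m M hMpos X s.good
  obtain ⟨V', hV'V, hV'card, hV'c⟩ := remove_classes V (s.F.card + 1) s.P s.hP2 s.hP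
    (fun p => insert (d % p) (s.F.image (fun a => a % p)))
    (fun p => (card_insert_le _ _).trans (Nat.add_le_add_right card_image_le _)) P' (by omega)
  have hsize : k ≤ V'.card := by
    by_contra hlt
    push Not at hlt
    have h1 : a ≤ s.m * V.card := by rw [hVcard]; exact hXm
    have h2 : 2 ≤ s.P * (s.P - 1) := by
      have := s.hP2
      calc 2 = 2 * 1 := rfl
        _ ≤ s.P * (s.P - 1) := Nat.mul_le_mul this (by omega)
    have h3 : V.card * 2 ≤ V'.card * (P' * (P' - 1)) := (Nat.mul_le_mul_left _ h2).trans hV'card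
    have h4 : P' ≤ 3 * K := by
      have : 16 * (s.m + s.F.card + s.P + Y + 2) ≤ K := hKZ
      omega
    have h5 : V.card * 2 ≤ K * (3 * K * (3 * K)) := by
      refine h3.trans (Nat.mul_le_mul (by omega) (Nat.mul_le_mul h4 (by omega)))
    have h6 : s.m * 16 ≤ K := by omega
    have h7 : K ^ 5 ≤ s.m * V.card := hK1.trans h1
    have h8 : K ^ 5 * 32 ≤ K * (K * (3 * K * (3 * K))) := by
      calc K ^ 5 * 32 ≤ (s.m * V.card) * 32 := Nat.mul_le_mul_right _ h7
        _ = (s.m * 16) * (V.card * 2) := by ring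
        _ ≤ K * (K * (3 * K * (3 * K))) := Nat.mul_le_mul h6 h5
    have h9 : K * (K * (3 * K * (3 * K))) = K ^ 4 * 9 := by ring
    rw [h9] at h8
    have hK0 : 16 ≤ K := by omega
    have h10 : K ^ 4 * 9 < K ^ 5 * 32 := by
      have : 0 < K ^ 4 := by positivity
      calc K ^ 4 * 9 < K ^ 4 * (16 * 32) := by nlinarith
        _ ≤ K ^ 4 * (K * 32) := Nat.mul_le_mul_left _ (Nat.mul_le_mul_right _ hK0)
        _ = K ^ 5 * 32 := by ring
    omega
  obtain ⟨W, hWV, hWcard⟩ := exists_subset_card_eq hsize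
  have hWR : ∀ b ∈ W, b ∈ s.R ∧ b < X := by
    intro b hb
    have := hV'V (hWV hb)
    rw [hV, Set.Finite.mem_toFinset] at this
    exact this
  have hsub : ((s.F ∪ W : Finset ℕ) : Set ℕ) ∪ {b ∈ s.R | b % M = d ∧ X ≤ b} ⊆
      (s.F : Set ℕ) ∪ s.R := by
    rintro b (hb | hb)
    · rw [coe_union] at hb
      rcases hb with hb | hb
      · exact Or.inl hb
      · exact Or.inr (hWR b hb).1
    · exact Or.inr hb.1
  refine ⟨⟨s.F ∪ W, {b ∈ s.R | b % M = d ∧ X ≤ b}, 2 * s.m * M, P', ?_, fun b hb => s.hR hb.1,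
    by have := s.hP2; omega, ?_, hgood, ?_⟩, X, hX, hXY, subset_union_left, hsub, by
      change s.P < P'
      omega, ?_, ?_⟩
  · intro b hb
    rw [coe_union] at hb
    rcases hb with hb | hb
    · exact s.hF hb
    · exact s.hR (hWR b hb).1
  · have := card_union_le s.F W
    omega
  · intro p hp hpP
    rcases Nat.lt_or_ge s.P p with h | h
    · obtain ⟨c, hc1, hc2, hc3⟩ := hV'c p h hpP
      rw [mem_insert, not_or] at hc2
      refine ⟨c, hc1, ?_, ?_⟩
      · intro b hb hbc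
        rcases mem_union.1 hb with hb | hb
        · exact hc2.2 (mem_image.2 ⟨b, hb, hbc⟩)
        · exact hc3 b (hWV hb) hbc
      · rintro b ⟨_, hb, _⟩ hbc
        apply hc2.1
        have hpM : p ∣ M := dvd_prod_of_mem _ (mem_filter.2 ⟨mem_Ioc.2 ⟨h, hpP⟩, hp⟩)
        rw [← hbc, ← hb, Nat.mod_mod_of_dvd _ hpM]
    · obtain ⟨c, hc1, hc2, hc3⟩ := s.adm p hp h
      refine ⟨c, hc1, ?_, fun b hb => hc3 b hb.1⟩
      intro b hb
      rcases mem_union.1 hb with hb | hb
      · exact hc2 b hb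
      · exact hc3 b (hWR b hb).1
  · have h1 : k ≤ (((s.F ∪ W : Finset ℕ) : Set ℕ) ∩ Set.Iio X).ncard := by
      rw [← hWcard, ← Set.ncard_coe_finset]
      apply Set.ncard_le_ncard _ ((Set.finite_Iio _).inter_of_right _)
      intro b hb
      refine ⟨?_, (hWR b hb).2⟩
      rw [coe_union]
      exact Or.inr hb
    exact hK2.le.trans (Nat.pow_le_pow_left h1 5)
  · refine le_trans ?_ hXZ
    calc Y ≤ Z := by omega
      _ = Z ^ 1 := (pow_one _).symm
      _ ≤ Z ^ 5 := Nat.pow_le_pow_right (by omega) (by norm_num)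

/-- every infinite set `A` has an infinite subset `A'` which misses a residue class modulo every
prime, and contains the fifth root of the number of the elements of `A` below `X`, for infinitely
many `X` in a given infinite set -/
theorem select (A 𝒳 : Set ℕ) (hA : A.Infinite) (h𝒳 : 𝒳.Infinite) :
    ∃ A' ⊆ A, (∀ p : ℕ, p.Prime → ∃ c < p, ∀ a ∈ A', a % p ≠ c) ∧
      ∀ Y : ℕ, ∃ X ∈ 𝒳, Y ≤ X ∧ Y ≤ (A ∩ Set.Iio X).ncard ∧
        (A ∩ Set.Iio X).ncard ≤ (A' ∩ Set.Iio X).ncard ^ 5 := by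
  classical
  obtain ⟨s0, _⟩ := exists_St0 A 𝒳 hA h𝒳
  choose f g hg1 hg2 hg3 hg4 hg5 hg6 hg7 using step_St A 𝒳 hA
  let s : ℕ → St A 𝒳 := fun t => Nat.rec s0 (fun t x => f x t) t
  have hs : ∀ t, s (t + 1) = f (s t) t := fun t => rfl
  have hmono : ∀ t u, t ≤ u → (s t).F ⊆ (s u).F := by
    intro t u htu
    induction u, htu using Nat.le_induction with
    | base => exact subset_rfl
    | succ u _ ih => rw [hs]; exact ih.trans (hg3 _ _)
  have hanti : ∀ t u, t ≤ u → ((s u).F : Set ℕ) ∪ (s u).R ⊆ ((s t).F : Set ℕ) ∪ (s t).R := by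
    intro t u htu
    induction u, htu using Nat.le_induction with
    | base => exact subset_rfl
    | succ u _ ih => rw [hs]; exact (hg4 _ _).trans ih
  have hP : ∀ t, t ≤ (s t).P := by
    intro t
    induction t with
    | zero => exact Nat.zero_le _
    | succ t ih => rw [hs]; exact lt_of_le_of_lt ih (hg5 _ _)
  refine ⟨⋃ t, ((s t).F : Set ℕ), Set.iUnion_subset fun t => (s t).hF, ?_, ?_⟩
  · intro p hp
    obtain ⟨c, hc1, hc2, hc3⟩ := (s p).adm p hp (hP p)
    refine ⟨c, hc1, ?_⟩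
    intro a ha
    obtain ⟨t, ht⟩ := Set.mem_iUnion.1 ha
    rcases le_total t p with h | h
    · exact hc2 a (hmono t p h ht)
    · rcases hanti p t h (Or.inl ht) with h1 | h1
      · exact hc2 a h1
      · exact hc3 a h1
  · intro Y
    refine ⟨g (s Y) Y, hg1 _ _, hg2 _ _, hg7 _ _, ?_⟩
    refine (hg6 (s Y) Y).trans (Nat.pow_le_pow_left ?_ 5)
    apply Set.ncard_le_ncard _ ((Set.finite_Iio _).inter_of_right _)
    apply Set.inter_subset_inter_left
    rw [← hs]
    exact Set.subset_iUnion (fun t => ((s t).F : Set ℕ)) (Y + 1)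

end Pool.Agent.Helper85.IG
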