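import Mathlib
import Pool.Agent.Helper85.IG.Growth
import Pool.Agent.Helper85.IG.Select

/-! Infinite exact patterns of maximal growth inside arbitrary infinite sets. -/

namespace Pool.Agent.Helper85.IG

open Finset Filter Topology

theorem dense_in_set (q r : ℕ) (hq : 1 ≤ q) (A : Set ℕ) (hA : A.Infinite)
    (hcop : ∀ a ∈ A, (r + a).Coprime q) (ψ : ℕ → ℝ) (hψ : Tendsto ψ atTop atTop)
    (𝒳 : Set ℕ) (h𝒳 : 𝒳.Infinite) :
    ∃ B ⊆ A, B.Infinite ∧ (∀ R : ℕ, {n : ℕ | n ≡ r [MOD q] ∧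
        ∀ y : ℤ, |y| ≤ R → (Nat.Prime ((n : ℤ) + y).toNat ↔ ∃ b ∈ B, (b : ℤ) = y)}.Infinite) ∧
      ∃ᶠ X : ℕ in atTop, X ∈ 𝒳 ∧
        Real.log (A ∩ Set.Iio X).ncard ≤ ψ X * ((B ∩ Set.Iio X).ncard : ℝ) := by
  classical
  obtain ⟨c₀, hc₀, hmain⟩ := seq_growth
  obtain ⟨A', hA'A, hadm, hsize⟩ := select A 𝒳 hA h𝒳
  -- `A'` is infinite
  have hA'inf : A'.Infinite := by
    intro hfin
    obtain ⟨X, _, _, h1, h2⟩ := hsize (A'.ncard ^ 5 + 1)
    have h3 : (A' ∩ Set.Iio X).ncard ≤ A'.ncard := Set.ncard_le_ncard Set.inter_subset_left hfin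
    have h4 := Nat.pow_le_pow_left h3 5
    omega
  -- enumeration
  set b : ℕ → ℕ := Nat.nth (· ∈ A') with hb
  have hinfset : (Set.ofPred (· ∈ A')).Infinite := hA'inf
  have hbmem : ∀ i, b i ∈ A' := fun i => Nat.nth_mem_of_infinite hinfset i
  have hbmono : StrictMono b := Nat.nth_strictMono hinfset
  have hcount : ∀ X, ∀ i, i < (A' ∩ Set.Iio X).ncard → b i < X := by
    intro X i hi
    have e : (A' ∩ Set.Iio X).ncard = Nat.count (· ∈ A') X := by
      rw [Nat.count_eq_card_filter_range, ← Set.ncard_coe_finset]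
      congr 1
      ext a
      simp [and_comm]
    rw [e] at hi
    exact Nat.nth_lt_of_lt_count hi
  -- the thresholds
  set 𝒩 : Set ℕ := {n | ∃ X ∈ 𝒳, n ≤ X ∧ n = (A' ∩ Set.Iio X).ncard ∧
    (A ∩ Set.Iio X).ncard ≤ n ^ 5} with h𝒩
  have hle : ∀ X, (A' ∩ Set.Iio X).ncard ≤ X := by
    intro X
    calc (A' ∩ Set.Iio X).ncard ≤ (Set.Iio X).ncard :=
          Set.ncard_le_ncard Set.inter_subset_right (Set.finite_Iio _)
      _ = X := by rw [← Nat.card_coe_set_eq]; simp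
  have h𝒩inf : 𝒩.Infinite := by
    rw [Set.infinite_iff_exists_gt]
    intro a
    obtain ⟨X, hX, _, h1, h2⟩ := hsize ((a + 1) ^ 5)
    refine ⟨(A' ∩ Set.Iio X).ncard, ⟨X, hX, hle X, rfl, h2⟩, ?_⟩
    have h3 := h1.trans h2
    have h4 := (Nat.pow_le_pow_iff_left (by norm_num : (5 : ℕ) ≠ 0)).1 h3
    omega
  have hL : ∀ t : ℕ, ∃ L : ℕ, t ≤ L ∧ (∀ X, L ≤ X → 5 / c₀ * 2 ^ t ≤ ψ X) ∧
      ∀ X : ℕ, L ≤ X → t * 2 ^ t / c₀ ≤ Real.log X := by
    intro t
    obtain ⟨L, hL⟩ := eventually_atTop.1 (hψ.eventually_ge_atTop (5 / c₀ * 2 ^ t))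
    obtain ⟨L', hL'⟩ := eventually_atTop.1
      ((Real.tendsto_log_atTop.comp tendsto_natCast_atTop_atTop).eventually_ge_atTop
        ((t : ℝ) * 2 ^ t / c₀))
    refine ⟨max t (max L L'), le_max_left _ _, fun X hX => hL X ?_, fun X hX => hL' X ?_⟩
    · exact ((le_max_left L L').trans (le_max_right _ _)).trans hX
    · exact ((le_max_right L L').trans (le_max_right _ _)).trans hX
  choose L hL1 hL2 hL3 using hL
  obtain ⟨I, hI1, hI2⟩ := hmain 𝒩 h𝒩inf L (fun _ => q) (fun i => ((r + b i : ℕ) : ℤ))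
    (fun _ => by exact_mod_cast hq)
    (by
      intro i j hij
      have h1 := (Prod.ext_iff.1 hij).2
      simp only at h1
      have h2 : b i = b j := by omega
      exact hbmono.injective h2)
    (by
      intro p hp
      by_cases hpq : p ∣ q
      · refine ⟨0, fun i hd => ?_⟩
        have h1 : p ∣ r + b i := by
          have h2 : (p : ℤ) ∣ ((r + b i : ℕ) : ℤ) := by simpa using hd
          exact Int.natCast_dvd_natCast.1 h2
        have h2 := hcop (b i) (hA'A (hbmem i))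
        exact Nat.Prime.not_coprime_iff_dvd.2 ⟨p, hp, h1, hpq⟩ h2
      · obtain ⟨c, hc, hcA⟩ := hadm p hp
        have hfact := Fact.mk hp
        have hq0 : ((q : ℕ) : ZMod p) ≠ 0 := by
          rw [Ne, ZMod.natCast_eq_zero_iff]
          exact hpq
        refine ⟨((-(c : ZMod p) - r) / q : ZMod p).val, fun i hd => ?_⟩
        apply hcA (b i) (hbmem i)
        have h1 := (ZMod.intCast_zmod_eq_zero_iff_dvd _ _).2 hd
        push_cast at h1
        rw [ZMod.natCast_zmod_val, mul_div_cancel₀ _ hq0] at h1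
        have h2 : ((b i : ℕ) : ZMod p) = (c : ZMod p) := by
          linear_combination h1
        rw [ZMod.natCast_eq_natCast_iff] at h2
        have h3 : b i % p = c % p := h2
        rw [h3, Nat.mod_eq_of_lt hc])
  refine ⟨b '' I, ?_, ?_, ?_, ?_⟩
  · rintro _ ⟨i, _, rfl⟩
    exact hA'A (hbmem i)
  · apply Set.Infinite.image hbmono.injective.injOn
    intro hfin
    obtain ⟨t, hta, n, hn, hLn, hcn⟩ := (frequently_atTop.1 hI1) (I.ncard + 1)
    have h1 : (I ∩ Set.Iio n).ncard ≤ I.ncard := Set.ncard_le_ncard Set.inter_subset_left hfin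
    have h2 : ((I ∩ Set.Iio n).ncard : ℝ) < t := by
      have : (I ∩ Set.Iio n).ncard < t := by omega
      exact_mod_cast this
    have h3 := hL3 t n hLn
    rw [div_le_iff₀ hc₀] at h3
    have h4 : (2 : ℝ) ^ t * ((I ∩ Set.Iio n).ncard : ℝ) < 2 ^ t * t :=
      mul_lt_mul_of_pos_left h2 (by positivity)
    linarith
  · intro R
    have h1 := hI2 ((Finset.Icc (-(R : ℤ)) R).image (fun y => ((q : ℤ), (r : ℤ) + y)))
      (by
        intro f hf
        obtain ⟨y, _, rfl⟩ := Finset.mem_image.1 hf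
        change (1 : ℤ) ≤ (q : ℤ)
        exact_mod_cast hq)
    have hinj : Set.InjOn (fun n : ℕ => q * n + r) {n : ℕ | ∀ f ∈ (Finset.Icc (-(R : ℤ)) R).image
        (fun y => ((q : ℤ), (r : ℤ) + y)), (Nat.Prime (f.1 * n + f.2).toNat ↔
          ∃ i ∈ I, f = ((q : ℤ), ((r + b i : ℕ) : ℤ)))} := by
      intro n _ m _ hnm
      simp only at hnm
      have h2 : q * n = q * m := by omega
      exact Nat.eq_of_mul_eq_mul_left (by omega) h2
    refine (h1.image hinj).mono ?_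
    rintro _ ⟨n, hn, rfl⟩
    refine ⟨?_, ?_⟩
    · change (q * n + r) % q = r % q
      rw [Nat.mul_add_mod]
    · intro y hy
      have h3 := hn ((q : ℤ), (r : ℤ) + y) (Finset.mem_image.2 ⟨y, Finset.mem_Icc.2 (abs_le.1 hy), rfl⟩)
      simp only at h3
      have e : ((q * n + r : ℕ) : ℤ) + y = (q : ℤ) * n + ((r : ℤ) + y) := by
        push_cast
        ring
      rw [e, h3]
      constructor
      · rintro ⟨i, hi, hij⟩
        refine ⟨b i, ⟨i, hi, rfl⟩, ?_⟩
        have h4 := (Prod.ext_iff.1 hij).2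
        simp only at h4
        push_cast at h4
        linarith
      · rintro ⟨_, ⟨i, hi, rfl⟩, hy⟩
        refine ⟨i, hi, ?_⟩
        rw [← hy]
        push_cast
        rfl
  · rw [frequently_atTop]
    intro a
    obtain ⟨t, hta, n, hn, hLn, hcn⟩ := (frequently_atTop.1 hI1) a
    obtain ⟨X, hX, hnX, hnc, hA5⟩ := hn
    have hLt := hL1 t
    refine ⟨X, by omega, hX, ?_⟩
    have h1 : (I ∩ Set.Iio n).ncard ≤ (b '' I ∩ Set.Iio X).ncard := by
      rw [← (hbmono.injective.injOn (s := I ∩ Set.Iio n)).ncard_image]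
      apply Set.ncard_le_ncard _ ((Set.finite_Iio _).inter_of_right _)
      rintro _ ⟨i, ⟨hi, hin⟩, rfl⟩
      refine ⟨⟨i, hi, rfl⟩, ?_⟩
      exact hcount X i (by rw [← hnc]; exact hin)
    have h2 : Real.log (A ∩ Set.Iio X).ncard ≤ 5 * Real.log n := by
      rcases Nat.eq_zero_or_pos (A ∩ Set.Iio X).ncard with h0 | h0
      · rw [h0]
        simp only [Nat.cast_zero, Real.log_zero]
        have := Real.log_natCast_nonneg n
        linarith
      · have h3 : ((A ∩ Set.Iio X).ncard : ℝ) ≤ (n : ℝ) ^ 5 := by exact_mod_cast hA5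
        have h4 := Real.log_le_log (by exact_mod_cast h0) h3
        rw [Real.log_pow] at h4
        exact_mod_cast h4
    have h5 : 5 / c₀ * 2 ^ t ≤ ψ X := hL2 t X (by omega)
    have h6 : ((I ∩ Set.Iio n).ncard : ℝ) ≤ ((b '' I ∩ Set.Iio X).ncard : ℝ) := by exact_mod_cast h1
    have h7 : 5 * Real.log n ≤ 5 / c₀ * 2 ^ t * ((I ∩ Set.Iio n).ncard : ℝ) := by
      have e : 5 / c₀ * 2 ^ t * ((I ∩ Set.Iio n).ncard : ℝ) =
          5 / c₀ * (2 ^ t * ((I ∩ Set.Iio n).ncard : ℝ)) := by ring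
      rw [e]
      calc 5 * Real.log n = 5 / c₀ * (c₀ * Real.log n) := by field_simp
        _ ≤ _ := by gcongr
    calc Real.log (A ∩ Set.Iio X).ncard ≤ 5 * Real.log n := h2
      _ ≤ 5 / c₀ * 2 ^ t * ((I ∩ Set.Iio n).ncard : ℝ) := h7
      _ ≤ ψ X * ((b '' I ∩ Set.Iio X).ncard : ℝ) := by
          apply mul_le_mul h5 h6 (Nat.cast_nonneg _)
          exact le_trans (by positivity) h5

end Pool.Agent.Helper85.IG
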